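import Mathlib
import Pool.Agent.P.MP_9682d1_al.A.A3
import Pool.Agent.P.MP_9682d1_al.KB.F5E
import Pool.Agent.P.MP_9682d1_al.KB.F5E1
import Pool.Agent.P.MP_9682d1_al.KB.F5E2
import Pool.Agent.P.MP_9682d1_al.KB.F5E3
import Pool.Agent.P.MP_9682d1_al.KB.F5Es
import Pool.Agent.P.MP_9682d1_al.KB.F5P

set_option autoImplicit false

namespace Pool.Agent.P.MP_9682d1_al.B5

open Pool.Agent.P.MP_9682d1_al.C
open Pool.Agent.P.MP_9682d1_al.KB (cj)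

universe u

variable {G : Type u} [Group G]

/-- the relations between two conjugates in exponent 5 -/
structure PL (u y : G) : Prop where
  p1 : cm (cm (cm (cm y u) u) u) u = 1
  p2 : cm (cm (cm (cm y u) u) u) y = 1
  p3 : cm (cm (cm (cm y u) y) y) u = 1
  p4 : cm (cm (cm (cm y u) y) y) y = 1
  p5 : cm (cm (cm y u) u) u = cm (cm (cm y u) y) y
  p6 : cm (cm (cm y u) u) u = cm (cm (cm y u) u) y ^ 2

theorem PL.q5 {u y : G} (h : PL u y) : (cm (cm (cm y u) u) u)⁻¹ * cm (cm (cm y u) y) y = 1 :=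
  inv_mul_eq_one.mpr h.p5

theorem PL.q6 {u y : G} (h : PL u y) :
    (cm (cm (cm y u) u) u)⁻¹ * cm (cm (cm y u) u) y ^ 2 = 1 := inv_mul_eq_one.mpr h.p6

theorem PL.map {Q : Type u} [Group Q] (f : G →* Q) {u y : G} (h : PL u y) : PL (f u) (f y) := by
  refine ⟨?_, ?_, ?_, ?_, ?_, ?_⟩ <;> simp only [← map_cm, ← map_pow]
  · rw [h.p1, map_one]
  · rw [h.p2, map_one]
  · rw [h.p3, map_one]
  · rw [h.p4, map_one]
  · rw [h.p5]
  · rw [h.p6]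

theorem PL.sub {H : Subgroup G} {u y : H} (h : PL (u : G) y) : PL u y := by
  refine ⟨?_, ?_, ?_, ?_, ?_, ?_⟩ <;> apply Subtype.ext <;>
    simp only [coe_cm, Subgroup.coe_pow, Subgroup.coe_one]
  exacts [h.p1, h.p2, h.p3, h.p4, h.p5, h.p6]

/-- the setting of the exponent 5 case -/
structure S5 (X : Set G) : Prop where
  cx : Cj X
  re : ∀ x ∈ X, RE 4 x
  ex : ∀ g : G, g ^ 5 = 1
  pl : ∀ x ∈ X, ∀ y ∈ X, PL x y

theorem S5.image {X : Set G} (h : S5 X) {Q : Type u} [Group Q] {f : G →* Q}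
    (hf : Function.Surjective f) : S5 (f '' X) := by
  refine ⟨?_, ?_, ?_, ?_⟩
  · rintro _ ⟨x, hx, rfl⟩ g
    obtain ⟨g, rfl⟩ := hf g
    exact ⟨_, h.cx x hx g, by simp⟩
  · rintro _ ⟨x, hx, rfl⟩
    exact (h.re x hx).map hf
  · intro g
    obtain ⟨g, rfl⟩ := hf g
    rw [← map_pow, h.ex, map_one]
  · rintro _ ⟨x, hx, rfl⟩ _ ⟨y, hy, rfl⟩
    exact (h.pl x hx y hy).map f

theorem S5.sub {X : Set G} (h : S5 X) (H : Subgroup G) : S5 (H.subtype ⁻¹' X) := by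
  refine ⟨fun x hx g => h.cx _ hx _, fun x hx g => ?_, fun g => Subtype.ext (h.ex _),
    fun x hx y hy => (h.pl _ hx _ hy).sub⟩
  exact Subtype.ext (B3.re4 (h.re _ hx) (g : G))

theorem ml (a g : G) : a ∈ Subgroup.closure ({a, g} : Set G) := Subgroup.subset_closure (by simp)

theorem mr (a g : G) : g ∈ Subgroup.closure ({a, g} : Set G) := Subgroup.subset_closure (by simp)

theorem s5_cls {a : G} (ha : RE 4 a) (ex : ∀ g : G, g ^ 5 = 1) : S5 (cls a) := by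
  refine ⟨cj_cls a, fun x hx => ha.cls hx, ex, fun x hx y hy => ?_⟩
  obtain ⟨g, rfl⟩ := exists_cj_of_cls hx hy
  obtain ⟨t1, t2, t3, t4, t5, t6, -⟩ := KB.F5E.main _ (A.A0 G x g (ha.cls hx)) x g (ml _ _) (mr _ _)
    (ex _) (ex _) (fun z _ => ex z) fun z _ => B3.re4 (ha.cls hx) z
  exact ⟨t1, t2, t3, t4, t5, t6⟩

namespace S5

variable {X : Set G} (h : S5 X) {a : G} (ha : a ∈ X)
include h ha

theorem pc {b : G} (hb : b ∈ X) (x : G) : PL a (cj b x) := h.pl a ha _ (h.cx b hb x)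

theorem r4 (x : G) : cm (cm (cm (cm a x) x) x) x = 1 := B3.re4 (h.re a ha) x

theorem cen (g : G) :
    a⁻¹ * cj a g⁻¹ * a⁻¹ * cj a g * cj a⁻¹ (g ^ 2) * cj a g =
      cj a⁻¹ (g ^ 2) * cj a g * a⁻¹ * cj a g * a⁻¹ * cj a g⁻¹ ∧
    a⁻¹ * cj a g⁻¹ * cj a⁻¹ (g⁻¹ ^ 2) * cj a g⁻¹ * a⁻¹ * cj a g⁻¹ * a⁻¹ * cj a g =
      cj a⁻¹ g * a * cj a⁻¹ g⁻¹ * a * cj a⁻¹ g * a * cj a⁻¹ g * cj a (g ^ 2) :=
  (KB.F5E.main _ (A.A0 G a g (h.re a ha)) a g (ml _ _) (mr _ _)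
    (h.ex _) (h.ex _) (fun z _ => h.ex z) fun z _ => h.r4 ha z).2.2.2.2.2.2

theorem w3 (x y : G) (c0 : cm a y = 1) (c1 : cm (cj a x) y = 1) (c2 : cm (cj a x⁻¹) y = 1) :
    cm (cj a (x * x)) y = 1 ∧ cm (cj a (x⁻¹ * x⁻¹)) y = 1 := by
  have := A.w3_step (a := cj a x⁻¹) (h.re _ (h.cx a ha x⁻¹)) x y (cj a (x⁻¹ * x⁻¹)) a (cj a x)
    (cj a (x * x)) (by simp [A.cj, cj, mul_assoc]) (by simp [A.cj, cj, mul_assoc]) rfl
    (by simp [A.cj, cj, mul_assoc]) (cm_eq_one.mp c2).symm (cm_eq_one.mp c0).symm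
    (cm_eq_one.mp c1).symm
  exact ⟨cm_eq_one.mpr this.1.symm, cm_eq_one.mpr this.2.symm⟩

theorem f2 {s : G} (hs : s ∈ X) (y : G) (c : cm a y = 1) :
    cm (cm (cm (cm s a) a) a) y = 1 := by
  have p := h.pl a ha s hs
  obtain ⟨t1, t2, t3, -⟩ := KB.F5P.main _ (A.A0 G a s (h.re a ha)) a s (ml _ _) (mr _ _)
    (h.ex _) (h.ex _) (fun z _ => h.ex z) p.p1 p.p2 p.p3 p.p4 p.q5 p.q6
  have k : ∀ g : G, cj a g = cj a s → Commute (cm (cm (cj a s) a) a) g := fun g e => by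
    rw [← e] at t1 t2 ⊢
    exact cm_eq_one.mp (KB.F5Es.main _ (A.A0 G a g (h.re a ha)) a g (ml _ _) (mr _ _)
      (h.ex _) (h.ex _) (fun z _ => h.ex z) (fun z _ => h.r4 ha z) t1 t2)
  have k2 := (k (y * s) (by
    rw [cj, cj, ← cj_of_comm (cm_eq_one.mp c)]
    rw [cj_of_comm (cm_eq_one.mp c), mul_inv_rev, mul_assoc s⁻¹, mul_assoc s⁻¹, ← mul_assoc _ y,
      cj_of_comm (cm_eq_one.mp c), mul_assoc])).mul_right (k s rfl).inv_right
  rw [mul_inv_cancel_right] at k2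
  have e : cm (cm (cm s a) a) a = (cm (cm (cj a s) a) a)⁻¹ := eq_inv_of_mul_eq_one_right t3
  rw [e]
  exact cm_eq_one.mpr k2.inv_left

theorem f2' {s : G} (hs : s ∈ X) (y : G) (c : cm a y = 1) :
    cm (cm (cm (cm s a) s) s) y = 1 := by
  rw [← (h.pl a ha s hs).p5]
  exact h.f2 ha hs y c

/-- class 3 from one relation -/
theorem cl3 {s : G} (hs : s ∈ X) (c : cm (cm (cm s a) a) a = 1) :
    cm (cm (cm s a) a) s = 1 ∧ cm (cm (cm s a) s) a = 1 ∧ cm (cm (cm s a) s) s = 1 := by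
  have p := h.pl a ha s hs
  obtain ⟨-, -, -, t4⟩ := KB.F5P.main _ (A.A0 G a s (h.re a ha)) a s (ml _ _) (mr _ _)
    (h.ex _) (h.ex _) (fun z _ => h.ex z) p.p1 p.p2 p.p3 p.p4 p.q5 p.q6
  have e : cm (cm (cm s a) a) s = 1 := by
    have e5 := h.ex (cm (cm (cm s a) a) s)
    rwa [show 5 = 2 * 2 + 1 from rfl, pow_succ, pow_mul, ← p.p6, c, one_pow, one_mul] at e5
  exact ⟨e, t4.trans e, p.p5.symm.trans c⟩

end S5

/-- only the identity commutes with `a, b, c` -/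
def Z0 (a b c : G) : Prop := ∀ q : G, cm q a = 1 → cm q b = 1 → cm q c = 1 → q = 1

theorem Z0.swap {a b c : G} (h : Z0 a b c) : Z0 b a c := fun q h1 h2 h3 => h q h2 h1 h3

theorem nil3 {X : Set G} (h : S5 X) {a b c : G} (ha : a ∈ X) (hb : b ∈ X) (hc : c ∈ X)
    (K : ∀ (Q : Type u) [Group Q] (Y : Set Q) (a' b' c' : Q), S5 Y → a' ∈ Y → b' ∈ Y → c' ∈ Y →
      Z0 a' b' c' → (cm a b = 1 → cm a' b' = 1) → (P2 a b → P2 a' b') →
      a' = 1 ∧ b' = 1 ∧ c' = 1) :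
    Group.IsNilpotent (Subgroup.closure ({a, b, c} : Set G)) := by
  let H := Subgroup.closure ({a, b, c} : Set G)
  let a0 : H := ⟨a, m1 a b c⟩
  let b0 : H := ⟨b, m2 a b c⟩
  let c0 : H := ⟨c, m3 a b c⟩
  refine nil_of_quot (T := {a0, b0, c0}) (Set.toFinite _) ?_ fun Q _ φ hφ hz => ?_
  · rw [← Subgroup.closure_closure_coe_preimage (k := ({a, b, c} : Set G))]
    congr 1
    ext x
    simp [a0, b0, c0, Subtype.ext_iff]
  · obtain ⟨k1, k2, k3⟩ := K Q _ (φ a0) (φ b0) (φ c0) ((h.sub H).image hφ) ⟨_, ha, rfl⟩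
      ⟨_, hb, rfl⟩ ⟨_, hc, rfl⟩
      (fun q h1 h2 h3 => hz q (by rintro t (rfl | rfl | rfl) <;> assumption))
      (fun e => by rw [← map_cm, show cm a0 b0 = 1 from Subtype.ext e, map_one])
      (fun p => by
        rw [P2, ← map_cm]
        exact ⟨Commute.map (show Commute (cm a0 b0) a0 from Subtype.ext p.1.eq) φ,
          Commute.map (show Commute (cm a0 b0) b0 from Subtype.ext p.2.eq) φ⟩)
    rintro t (rfl | rfl | rfl) <;> assumption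

end Pool.Agent.P.MP_9682d1_al.B5
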