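import Mathlib
import Pool.Agent.P.MP_9682d1_al.B5.Base
import Pool.Agent.P.MP_9682d1_al.KB.F5Ta
import Pool.Agent.P.MP_9682d1_al.KB.F5Tb
import Pool.Agent.P.MP_9682d1_al.KB.F5L

set_option autoImplicit false

namespace Pool.Agent.P.MP_9682d1_al.B5

open Pool.Agent.P.MP_9682d1_al.C
open Pool.Agent.P.MP_9682d1_al.KB (cj)

universe u

variable {G : Type u} [Group G]

namespace S5

variable {X : Set G} (h : S5 X) {a : G} (ha : a ∈ X)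
include h ha

theorem e1 (g : G)
    (c4 : cm (cj a g) a = 1) :
    cm (cj a g) (cj a g⁻¹) = 1 ∧
    cm (cj a (g * g)) (cj a g⁻¹) = 1 :=
  KB.F5E1.main _ (A.A0 G a g (h.re a ha)) a g (ml _ _) (mr _ _) (h.ex _) (h.ex _)
    (fun z _ => h.ex z) (fun z _ => h.r4 ha z) c4

theorem e2 (g : G)
    (c4 : cm (cm (cj a g) a) a = 1)
    (c5 : cm (cm (cj a g) a) (cj a g) = 1) :
    cm (cm (cj a g) a) (cj a g⁻¹) = 1 ∧
    cm (cm (cj a g) a) (cj a (g * g)) = 1 ∧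
    cm (cm (cj a g) a) (cj a (g⁻¹ * g⁻¹)) = 1 ∧
    cm (cm (cj a g) (cj a g⁻¹)) a = 1 ∧
    cm (cm (cj a g) (cj a g⁻¹)) (cj a g) = 1 ∧
    cm (cm (cj a g) (cj a g⁻¹)) (cj a g⁻¹) = 1 ∧
    cm (cm (cj a g) (cj a g⁻¹)) (cj a (g * g)) = 1 ∧
    cm (cm (cj a g) (cj a g⁻¹)) (cj a (g⁻¹ * g⁻¹)) = 1 ∧
    cm (cm (cm (cm (cj a g) a) g) g) g = 1 :=
  KB.F5E2.main _ (A.A0 G a g (h.re a ha)) a g (ml _ _) (mr _ _) (h.ex _) (h.ex _)
    (fun z _ => h.ex z) (fun z _ => h.r4 ha z) c4 c5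

theorem e3 (g : G)
    (c4 : cm (cm (cm (cj a g) a) a) a = 1)
    (c5 : cm (cm (cm (cj a g) a) a) (cj a g) = 1) :
    cm (cm (cm (cj a g) a) a) (cj a g⁻¹) = 1 ∧
    cm (cm (cm (cj a g) a) (cj a g)) (cj a g⁻¹) = 1 ∧
    cm (cm (cm (cj a g) a) a) (cj a (g * g)) = 1 ∧
    cm (cm (cm (cj a g) a) (cj a g)) (cj a (g * g)) = 1 :=
  KB.F5E3.main _ (A.A0 G a g (h.re a ha)) a g (ml _ _) (mr _ _) (h.ex _) (h.ex _)
    (fun z _ => h.ex z) (fun z _ => h.r4 ha z) c4 c5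

variable {b c : G} (hb : b ∈ X) (hc : c ∈ X)
include hb hc

section
variable (hz : Z0 a b c) (hab : cm a b = 1)
include hz hab

omit hb in
theorem z4 : cm (cm (cm c a) a) a = 1 :=
  hz _ (h.pl a ha c hc).p1 (h.f2 ha hc b hab) (h.pl a ha c hc).p2

theorem ta : cm (cm c b) b = 1 := by
  have hba : cm b a = 1 := cm_eq_one.mpr (cm_eq_one.mp hab).symm
  have za := h.z4 ha hc hz hab
  have zb := h.z4 hb hc hz.swap hba
  obtain ⟨a1, a2, a3⟩ := h.cl3 ha hc za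
  obtain ⟨b1, b2, b3⟩ := h.cl3 hb hc zb
  exact KB.F5Ta.main a b c (fun x c1 => (h.e1 ha x c1).1) (fun x c1 => (h.e1 ha x c1).2)
    (fun x c1 c2 => (h.e2 ha x c1 c2).1) (fun x c1 c2 => (h.e2 ha x c1 c2).2.1)
    (fun x c1 c2 => (h.e2 ha x c1 c2).2.2.1) (fun x c1 c2 => (h.e2 ha x c1 c2).2.2.2.1)
    (fun x c1 c2 => (h.e2 ha x c1 c2).2.2.2.2.1) (fun x c1 c2 => (h.e2 ha x c1 c2).2.2.2.2.2.1)
    (fun x c1 c2 => (h.e2 ha x c1 c2).2.2.2.2.2.2.1)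
    (fun x c1 c2 => (h.e2 ha x c1 c2).2.2.2.2.2.2.2.1)
    (fun x c1 c2 => (h.e2 ha x c1 c2).2.2.2.2.2.2.2.2) (fun x c1 c2 => (h.e3 ha x c1 c2).1)
    (fun x c1 c2 => (h.e3 ha x c1 c2).2.2.1) (fun x y c1 => h.f2 ha (h.cx _ ha x) y c1)
    (fun x y c1 => h.f2' ha (h.cx _ ha x) y c1) (fun x c1 => (h.e1 hb x c1).1)
    (fun x c1 => (h.e1 hb x c1).2) (fun x c1 c2 => (h.e2 hb x c1 c2).1)
    (fun x c1 c2 => (h.e2 hb x c1 c2).2.1) (fun x c1 c2 => (h.e2 hb x c1 c2).2.2.1)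
    (fun x c1 c2 => (h.e2 hb x c1 c2).2.2.2.1) (fun x c1 c2 => (h.e2 hb x c1 c2).2.2.2.2.1)
    (fun x c1 c2 => (h.e2 hb x c1 c2).2.2.2.2.2.1) (fun x c1 c2 => (h.e2 hb x c1 c2).2.2.2.2.2.2.1)
    (fun x c1 c2 => (h.e2 hb x c1 c2).2.2.2.2.2.2.2.1)
    (fun x c1 c2 => (h.e2 hb x c1 c2).2.2.2.2.2.2.2.2) (fun x c1 c2 => (h.e3 hb x c1 c2).2.1)
    (fun x c1 c2 => (h.e3 hb x c1 c2).2.2.2) (fun x y c1 => h.f2 hb (h.cx _ hb x) y c1)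
    (fun x y c1 => h.f2' hb (h.cx _ hb x) y c1) (fun x c1 => (h.e1 hc x c1).1)
    (fun x c1 => (h.e1 hc x c1).2) (fun x c1 c2 => (h.e2 hc x c1 c2).1)
    (fun x c1 c2 => (h.e2 hc x c1 c2).2.1) (fun x c1 c2 => (h.e2 hc x c1 c2).2.2.1)
    (fun x c1 c2 => (h.e2 hc x c1 c2).2.2.2.1) (fun x c1 c2 => (h.e2 hc x c1 c2).2.2.2.2.1)
    (fun x c1 c2 => (h.e2 hc x c1 c2).2.2.2.2.2.1) (fun x c1 c2 => (h.e2 hc x c1 c2).2.2.2.2.2.2.1)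
    (fun x c1 c2 => (h.e2 hc x c1 c2).2.2.2.2.2.2.2.1)
    (fun x c1 c2 => (h.e2 hc x c1 c2).2.2.2.2.2.2.2.2) (fun x c1 c2 => (h.e3 hc x c1 c2).2.1)
    (fun x c1 c2 => (h.e3 hc x c1 c2).2.2.2) (fun x y c1 => h.f2 hc (h.cx _ hc x) y c1)
    (fun x y c1 => h.f2' hc (h.cx _ hc x) y c1) hz (fun _ _ => hz _) hab za a1 a2 a3 zb b1 b2 b3
    h.ex (fun x => (h.pc ha ha x).p1) (fun x => (h.pc ha ha x).p2) (fun x => (h.pc ha ha x).p5)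
    (fun x => (h.pc ha hb x).p1) (fun x => (h.pc ha hb x).p2) (fun x => (h.pc ha hb x).p3)
    (fun x => (h.pc ha hb x).p4) (fun x => (h.pc ha hb x).p5) (fun x => (h.pc ha hb x).p6)
    (fun x => (h.pc ha hc x).p1) (fun x => (h.pc ha hc x).p2) (fun x => (h.pc ha hc x).p3)
    (fun x => (h.pc ha hc x).p4) (fun x => (h.pc ha hc x).p5) (fun x => (h.pc ha hc x).p6)
    (fun x => (h.pc hb hb x).p1) (fun x => (h.pc hb hb x).p2) (fun x => (h.pc hb hb x).p4)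
    (fun x => (h.pc hb hb x).p5) (fun x => (h.pc hb hc x).p1) (fun x => (h.pc hb hc x).p2)
    (fun x => (h.pc hb hc x).p3) (fun x => (h.pc hb hc x).p4) (fun x => (h.pc hb hc x).p5)
    (fun x => (h.pc hb hc x).p6) (fun x => (h.pc hc hc x).p1) (fun x => (h.pc hc hc x).p2)
    (fun x => (h.pc hc hc x).p3) (fun x => (h.pc hc hc x).p4) (fun x => (h.pc hc hc x).p5)
    (fun x => (h.pc hc hc x).p6) (fun x => (h.cen ha x).1) (fun x => (h.cen ha x).2)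
    (fun x => (h.cen hb x).1) (fun x => (h.cen hb x).2) (fun x => (h.cen hc x).1)
    (fun x => (h.cen hc x).2) (fun x => h.f2 ha (h.cx _ hb x) b hab)
    (fun x => h.f2 ha (h.cx _ hc x) b hab) (fun x => h.f2 hb (h.cx _ ha x) a hba)
    (fun x => h.f2 hb (h.cx _ hb x) a hba) (fun x => h.f2 hb (h.cx _ hc x) a hba)

theorem tb : a = 1 ∧ b = 1 ∧ c = 1 := by
  have hba : cm b a = 1 := cm_eq_one.mpr (cm_eq_one.mp hab).symm
  obtain ⟨-, a2, a3⟩ := h.cl3 ha hc (h.z4 ha hc hz hab)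
  obtain ⟨-, b2, b3⟩ := h.cl3 hb hc (h.z4 hb hc hz.swap hba)
  have fb := h.ta ha hb hc hz hab
  have fa := h.ta hb ha hc hz.swap hba
  exact KB.F5Tb.main a b c (fun x c1 => (h.e1 ha x c1).1) (fun x c1 => (h.e1 ha x c1).2)
    (fun x c1 c2 => (h.e2 ha x c1 c2).1) (fun x c1 c2 => (h.e2 ha x c1 c2).2.1)
    (fun x c1 c2 => (h.e2 ha x c1 c2).2.2.1) (fun x c1 c2 => (h.e2 ha x c1 c2).2.2.2.1)
    (fun x c1 c2 => (h.e2 ha x c1 c2).2.2.2.2.1) (fun x c1 c2 => (h.e2 ha x c1 c2).2.2.2.2.2.1)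
    (fun x c1 c2 => (h.e2 ha x c1 c2).2.2.2.2.2.2.1)
    (fun x c1 c2 => (h.e2 ha x c1 c2).2.2.2.2.2.2.2.1)
    (fun x c1 c2 => (h.e2 ha x c1 c2).2.2.2.2.2.2.2.2) (fun x y c1 => h.f2 ha (h.cx _ ha x) y c1)
    (fun x c1 => (h.e1 hb x c1).1) (fun x c1 => (h.e1 hb x c1).2)
    (fun x c1 c2 => (h.e2 hb x c1 c2).1) (fun x c1 c2 => (h.e2 hb x c1 c2).2.1)
    (fun x c1 c2 => (h.e2 hb x c1 c2).2.2.1) (fun x c1 c2 => (h.e2 hb x c1 c2).2.2.2.2.1)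
    (fun x c1 c2 => (h.e2 hb x c1 c2).2.2.2.2.2.1) (fun x c1 c2 => (h.e2 hb x c1 c2).2.2.2.2.2.2.1)
    (fun x c1 c2 => (h.e2 hb x c1 c2).2.2.2.2.2.2.2.1) (fun x c1 c2 => (h.e3 hb x c1 c2).2.1)
    (fun x c1 c2 => (h.e3 hb x c1 c2).2.2.2) (fun x y c1 c2 c3 => (h.w3 hb x y c1 c2 c3).2)
    (fun x y c1 => h.f2 hb (h.cx _ hb x) y c1) (fun x y c1 => h.f2' hb (h.cx _ hb x) y c1)
    (fun x c1 => (h.e1 hc x c1).1) (fun x c1 => (h.e1 hc x c1).2)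
    (fun x c1 c2 => (h.e2 hc x c1 c2).1) (fun x c1 c2 => (h.e2 hc x c1 c2).2.1)
    (fun x c1 c2 => (h.e2 hc x c1 c2).2.2.1) (fun x c1 c2 => (h.e2 hc x c1 c2).2.2.2.1)
    (fun x c1 c2 => (h.e2 hc x c1 c2).2.2.2.2.1) (fun x c1 c2 => (h.e2 hc x c1 c2).2.2.2.2.2.1)
    (fun x c1 c2 => (h.e2 hc x c1 c2).2.2.2.2.2.2.1)
    (fun x c1 c2 => (h.e2 hc x c1 c2).2.2.2.2.2.2.2.1)
    (fun x c1 c2 => (h.e2 hc x c1 c2).2.2.2.2.2.2.2.2) (fun x y c1 => h.f2 hc (h.cx _ hc x) y c1)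
    (fun x y c1 => h.f2' hc (h.cx _ hc x) y c1) hz (fun _ _ => hz _) hab fa a2 a3 fb b2 b3 h.ex
    (fun x => (h.pc ha ha x).p1) (fun x => (h.pc ha ha x).p2) (fun x => (h.pc ha ha x).p4)
    (fun x => (h.pc ha ha x).p5) (fun x => (h.pc ha ha x).p6) (fun x => (h.pc ha hb x).p1)
    (fun x => (h.pc ha hb x).p2) (fun x => (h.pc ha hb x).p3) (fun x => (h.pc ha hb x).p4)
    (fun x => (h.pc ha hb x).p5) (fun x => (h.pc ha hb x).p6) (fun x => (h.pc ha hc x).p1)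
    (fun x => (h.pc ha hc x).p2) (fun x => (h.pc ha hc x).p3) (fun x => (h.pc ha hc x).p4)
    (fun x => (h.pc ha hc x).p5) (fun x => (h.pc ha hc x).p6) (fun x => (h.pc hb hb x).p1)
    (fun x => (h.pc hb hb x).p2) (fun x => (h.pc hb hb x).p3) (fun x => (h.pc hb hb x).p4)
    (fun x => (h.pc hb hb x).p5) (fun x => (h.pc hb hb x).p6) (fun x => (h.pc hb hc x).p1)
    (fun x => (h.pc hb hc x).p2) (fun x => (h.pc hb hc x).p3) (fun x => (h.pc hb hc x).p4)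
    (fun x => (h.pc hb hc x).p5) (fun x => (h.pc hb hc x).p6) (fun x => (h.pc hc hc x).p1)
    (fun x => (h.pc hc hc x).p2) (fun x => (h.pc hc hc x).p3) (fun x => (h.pc hc hc x).p4)
    (fun x => (h.pc hc hc x).p5) (fun x => (h.pc hc hc x).p6) (fun x => (h.cen ha x).1)
    (fun x => (h.cen ha x).2) (fun x => (h.cen hb x).1) (fun x => (h.cen hb x).2)
    (fun x => (h.cen hc x).1) (fun x => (h.cen hc x).2) (fun x => h.f2 ha (h.cx _ hb x) b hab)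
    (fun x => h.f2 ha (h.cx _ hc x) b hab) (fun x => h.f2 hb (h.cx _ ha x) a hba)
    (fun x => h.f2 hb (h.cx _ hc x) a hba)

end

/-- three elements of `X`, two of which commute, generate a nilpotent group -/
theorem t5 (hab : cm a b = 1) : Group.IsNilpotent (Subgroup.closure ({a, b, c} : Set G)) :=
  nil3 h ha hb hc fun _ _ _ _ _ _ k ka kb kc kz e _ => k.tb ka kb kc kz (e hab)

end S5

/-- relations of the line group -/
def L5 (a b c : G) : Prop :=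
    cm (cm (cm c b) b) a = 1 ∧
    cm (cm (cm c b) b) b = 1 ∧
    cm (cm (cm c b) b) c = 1 ∧
    cm (cm (cm c b) c) b = 1 ∧
    cm (cm (cm c a) b) b = 1 ∧
    (cm (cm (cm b c) c) c) = ((cm (cm (cm c a) a) b) ^ (2)) ∧
    (cm (cm (cm b c) a) c) = ((cm (cm (cm c a) a) b)⁻¹ ^ (2)) ∧
    (cm (cm (cm b c) a) a) = (cm (cm (cm c a) a) b)⁻¹ ∧
    (cm (cm (cm b c) c) a) = ((cm (cm (cm c a) a) b) * (cm (cm (cm c a) c) b)) ∧
    cm (cm (cm (cm c a) a) b) a = 1 ∧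
    cm (cm (cm (cm c a) a) b) b = 1 ∧
    cm (cm (cm (cm c a) a) b) c = 1 ∧
    cm (cm (cm (cm c a) c) b) a = 1 ∧
    cm (cm (cm (cm c a) c) b) b = 1 ∧
    cm (cm (cm (cm c a) c) b) c = 1 ∧
    cm (cm (cm (cm c a) a) c) b = 1

theorem S5.l5 {X : Set G} (h : S5 X) {a c : G} (ha : a ∈ X) (hc : c ∈ X) (r : G)
    (c1 : cm (cm a r) a = 1) (c2 : cm (cm a r) r = 1) : L5 a (cm a r) c := by
  have p : P2 a r := ⟨cm_eq_one.mp c1, cm_eq_one.mp c2⟩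
  have m : ∀ n : ℕ, a * cm a r ^ n ∈ X := fun n => by
    rw [← B3.P2.cj_pow p n]
    exact h.cx a ha _
  have h1 : a * cm a r ∈ X := by simpa using m 1
  have h2 := m 2
  have h3 := m 3
  generalize cm a r = b at c1 h1 h2 h3
  have e : cm a b = 1 := cm_eq_one.mpr (cm_eq_one.mp c1).symm
  have k : a * b ∈ Subgroup.closure ({a, a * b, c} : Set G) := m2 _ _ _
  exact KB.F5L.main _ (h.t5 ha h1 hc (cm_eq_one.mpr ((Commute.refl a).mul_right (cm_eq_one.mp e))))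
    a b c (m1 _ _ _) ((Subgroup.mul_mem_cancel_left _ (m1 _ _ _)).mp k) (m3 _ _ _)
    (h.ex _) (h.ex _) (h.ex _) e (fun z _ => h.ex z)
    (fun x _ => (h.pc ha hc x).p1) (fun x _ => (h.pc ha hc x).p2)
    (fun x _ => (h.pc ha hc x).p3) (fun x _ => (h.pc ha hc x).p4)
    (fun x _ => (h.pc ha hc x).q5) (fun x _ => (h.pc ha hc x).q6)
    (fun x _ => (h.pc h1 hc x).p1) (fun x _ => (h.pc h1 hc x).p2)
    (fun x _ => (h.pc h1 hc x).p3) (fun x _ => (h.pc h1 hc x).p4)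
    (fun x _ => (h.pc h1 hc x).q5) (fun x _ => (h.pc h1 hc x).q6)
    (fun x _ => (h.pc h2 hc x).p1) (fun x _ => (h.pc h2 hc x).p2)
    (fun x _ => (h.pc h2 hc x).p3) (fun x _ => (h.pc h2 hc x).p4)
    (fun x _ => (h.pc h2 hc x).q5) (fun x _ => (h.pc h2 hc x).q6)
    (fun x _ => (h.pc h3 hc x).p1) (fun x _ => (h.pc h3 hc x).p2)
    (fun x _ => (h.pc h3 hc x).p3) (fun x _ => (h.pc h3 hc x).p4)
    (fun x _ => (h.pc h3 hc x).q5) (fun x _ => (h.pc h3 hc x).q6)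
    (fun z _ => h.r4 ha z) (fun z _ => h.r4 h1 z) (fun z _ => h.r4 h2 z) (fun z _ => h.r4 h3 z)
    fun z _ => h.r4 hc z

end Pool.Agent.P.MP_9682d1_al.B5
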