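import Mathlib
import Pool.Agent.P.MP_9682d1_al.B5.Line
import Pool.Agent.P.MP_9682d1_al.KB.F5Sa
import Pool.Agent.P.MP_9682d1_al.KB.F5Sb
import Pool.Agent.P.MP_9682d1_al.KB.F5Sc
import Pool.Agent.P.MP_9682d1_al.KB.F5T
import Pool.Agent.P.MP_9682d1_al.F.Five

set_option autoImplicit false

namespace Pool.Agent.P.MP_9682d1_al.B5

open Pool.Agent.P.MP_9682d1_al.C
open Pool.Agent.P.MP_9682d1_al.KB (cj)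

universe u

variable {G : Type u} [Group G]

namespace S5

variable {X : Set G} (h : S5 X) {a b c : G} (ha : a ∈ X) (hb : b ∈ X) (hc : c ∈ X)
include h ha hb hc

section
variable (hz : Z0 a b c) (p : P2 a b)
include hz p

theorem sa :
    cm (cm (cm a b) c) (cm a b) = 1 ∧
    cm (cm (cm (cm a b) c) a) a = 1 ∧
    cm (cm (cm (cm a b) c) a) c = 1 ∧
    cm (cm (cm (cm a b) c) b) b = 1 ∧
    cm (cm (cm (cm a b) c) b) c = 1 ∧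
    cm (cm (cm (cm a b) c) c) c = 1 ∧
    cm (cm (cm (cm (cm a b) c) a) b) a = 1 ∧
    cm (cm (cm (cm (cm a b) c) a) b) b = 1 ∧
    cm (cm (cm (cm (cm a b) c) c) a) a = 1 ∧
    cm (cm (cm (cm (cm a b) c) c) a) c = 1 ∧
    cm (cm (cm (cm (cm a b) c) c) b) b = 1 ∧
    cm (cm (cm (cm (cm a b) c) c) b) c = 1 := by
  have ea := cm_eq_one.mpr p.1
  have eb := cm_eq_one.mpr p.2
  exact KB.F5Sa.main a b c (fun x c1 c2 => (h.e2 hb x c1 c2).2.2.2.1)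
    (fun x c1 c2 => (h.e2 hb x c1 c2).2.2.2.2.1) (fun x c1 c2 => (h.e3 hb x c1 c2).2.1)
    (fun x y c1 => h.f2 hb (h.cx _ hb x) y c1) (fun x y c1 => h.f2 hc (h.cx _ hc x) y c1)
    (fun x y c1 c2 => (h.l5 ha (h.cx _ ha y) x c1 c2).1)
    (fun x y c1 c2 => (h.l5 ha (h.cx _ ha y) x c1 c2).2.1)
    (fun x y c1 c2 => (h.l5 ha (h.cx _ ha y) x c1 c2).2.2.1)
    (fun x y c1 c2 => (h.l5 ha (h.cx _ ha y) x c1 c2).2.2.2.1)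
    (fun x y c1 c2 => (h.l5 ha (h.cx _ ha y) x c1 c2).2.2.2.2.1)
    (fun x y c1 c2 => (h.l5 ha (h.cx _ ha y) x c1 c2).2.2.2.2.2.1)
    (fun x y c1 c2 => (h.l5 ha (h.cx _ ha y) x c1 c2).2.2.2.2.2.2.1)
    (fun x y c1 c2 => (h.l5 ha (h.cx _ ha y) x c1 c2).2.2.2.2.2.2.2.1.trans (pow_one _).symm)
    (fun x y c1 c2 => (h.l5 ha (h.cx _ ha y) x c1 c2).2.2.2.2.2.2.2.2.2.2.1)
    (fun x y c1 c2 => (h.l5 ha (h.cx _ hb y) x c1 c2).1)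
    (fun x y c1 c2 => (h.l5 ha (h.cx _ hb y) x c1 c2).2.1)
    (fun x y c1 c2 => (h.l5 ha (h.cx _ hb y) x c1 c2).2.2.1)
    (fun x y c1 c2 => (h.l5 ha (h.cx _ hb y) x c1 c2).2.2.2.1)
    (fun x y c1 c2 => (h.l5 ha (h.cx _ hb y) x c1 c2).2.2.2.2.2.1)
    (fun x y c1 c2 => (h.l5 ha (h.cx _ hb y) x c1 c2).2.2.2.2.2.2.1)
    (fun x y c1 c2 => (h.l5 ha (h.cx _ hb y) x c1 c2).2.2.2.2.2.2.2.1.trans (pow_one _).symm)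
    (fun x y c1 c2 => (h.l5 ha (h.cx _ hb y) x c1 c2).2.2.2.2.2.2.2.2.1)
    (fun x y c1 c2 => (h.l5 ha (h.cx _ hc y) x c1 c2).1)
    (fun x y c1 c2 => (h.l5 ha (h.cx _ hc y) x c1 c2).2.1)
    (fun x y c1 c2 => (h.l5 ha (h.cx _ hc y) x c1 c2).2.2.1)
    (fun x y c1 c2 => (h.l5 ha (h.cx _ hc y) x c1 c2).2.2.2.1)
    (fun x y c1 c2 => (h.l5 ha (h.cx _ hc y) x c1 c2).2.2.2.2.1)
    (fun x y c1 c2 => (h.l5 ha (h.cx _ hc y) x c1 c2).2.2.2.2.2.1)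
    (fun x y c1 c2 => (h.l5 ha (h.cx _ hc y) x c1 c2).2.2.2.2.2.2.1)
    (fun x y c1 c2 => (h.l5 ha (h.cx _ hc y) x c1 c2).2.2.2.2.2.2.2.1.trans (pow_one _).symm)
    (fun x y c1 c2 => (h.l5 ha (h.cx _ hc y) x c1 c2).2.2.2.2.2.2.2.2.1)
    (fun x y c1 c2 => (h.l5 ha (h.cx _ hc y) x c1 c2).2.2.2.2.2.2.2.2.2.1)
    (fun x y c1 c2 => (h.l5 ha (h.cx _ hc y) x c1 c2).2.2.2.2.2.2.2.2.2.2.1)
    (fun x y c1 c2 => (h.l5 ha (h.cx _ hc y) x c1 c2).2.2.2.2.2.2.2.2.2.2.2.1)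
    (fun x y c1 c2 => (h.l5 ha (h.cx _ hc y) x c1 c2).2.2.2.2.2.2.2.2.2.2.2.2.1)
    (fun x y c1 c2 => (h.l5 ha (h.cx _ hc y) x c1 c2).2.2.2.2.2.2.2.2.2.2.2.2.2.1)
    (fun x y c1 c2 => (h.l5 ha (h.cx _ hc y) x c1 c2).2.2.2.2.2.2.2.2.2.2.2.2.2.2.1)
    (fun x y c1 c2 => (h.l5 hb (h.cx _ ha y) x c1 c2).1)
    (fun x y c1 c2 => (h.l5 hb (h.cx _ ha y) x c1 c2).2.1)
    (fun x y c1 c2 => (h.l5 hb (h.cx _ ha y) x c1 c2).2.2.1)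
    (fun x y c1 c2 => (h.l5 hb (h.cx _ ha y) x c1 c2).2.2.2.1)
    (fun x y c1 c2 => (h.l5 hb (h.cx _ ha y) x c1 c2).2.2.2.2.1)
    (fun x y c1 c2 => (h.l5 hb (h.cx _ ha y) x c1 c2).2.2.2.2.2.1)
    (fun x y c1 c2 => (h.l5 hb (h.cx _ ha y) x c1 c2).2.2.2.2.2.2.2.1.trans (pow_one _).symm)
    (fun x y c1 c2 => (h.l5 hb (h.cx _ ha y) x c1 c2).2.2.2.2.2.2.2.2.1)
    (fun x y c1 c2 => (h.l5 hb (h.cx _ ha y) x c1 c2).2.2.2.2.2.2.2.2.2.1)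
    (fun x y c1 c2 => (h.l5 hb (h.cx _ ha y) x c1 c2).2.2.2.2.2.2.2.2.2.2.1)
    (fun x y c1 c2 => (h.l5 hb (h.cx _ ha y) x c1 c2).2.2.2.2.2.2.2.2.2.2.2.2.1)
    (fun x y c1 c2 => (h.l5 hb (h.cx _ ha y) x c1 c2).2.2.2.2.2.2.2.2.2.2.2.2.2.2.2)
    (fun x y c1 c2 => (h.l5 hb (h.cx _ hb y) x c1 c2).1)
    (fun x y c1 c2 => (h.l5 hb (h.cx _ hb y) x c1 c2).2.2.2.1)
    (fun x y c1 c2 => (h.l5 hb (h.cx _ hb y) x c1 c2).2.2.2.2.1)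
    (fun x y c1 c2 => (h.l5 hb (h.cx _ hb y) x c1 c2).2.2.2.2.2.1)
    (fun x y c1 c2 => (h.l5 hb (h.cx _ hb y) x c1 c2).2.2.2.2.2.2.2.2.1)
    (fun x y c1 c2 => (h.l5 hb (h.cx _ hb y) x c1 c2).2.2.2.2.2.2.2.2.2.2.2.2.2.2.2)
    (fun x y c1 c2 => (h.l5 hb (h.cx _ hc y) x c1 c2).1)
    (fun x y c1 c2 => (h.l5 hb (h.cx _ hc y) x c1 c2).2.1)
    (fun x y c1 c2 => (h.l5 hb (h.cx _ hc y) x c1 c2).2.2.1)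
    (fun x y c1 c2 => (h.l5 hb (h.cx _ hc y) x c1 c2).2.2.2.1)
    (fun x y c1 c2 => (h.l5 hb (h.cx _ hc y) x c1 c2).2.2.2.2.1)
    (fun x y c1 c2 => (h.l5 hb (h.cx _ hc y) x c1 c2).2.2.2.2.2.1)
    (fun x y c1 c2 => (h.l5 hb (h.cx _ hc y) x c1 c2).2.2.2.2.2.2.1)
    (fun x y c1 c2 => (h.l5 hb (h.cx _ hc y) x c1 c2).2.2.2.2.2.2.2.1.trans (pow_one _).symm)
    (fun x y c1 c2 => (h.l5 hb (h.cx _ hc y) x c1 c2).2.2.2.2.2.2.2.2.1)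
    (fun x y c1 c2 => (h.l5 hb (h.cx _ hc y) x c1 c2).2.2.2.2.2.2.2.2.2.1)
    (fun x y c1 c2 => (h.l5 hb (h.cx _ hc y) x c1 c2).2.2.2.2.2.2.2.2.2.2.1)
    (fun x y c1 c2 => (h.l5 hb (h.cx _ hc y) x c1 c2).2.2.2.2.2.2.2.2.2.2.2.1)
    (fun x y c1 c2 => (h.l5 hb (h.cx _ hc y) x c1 c2).2.2.2.2.2.2.2.2.2.2.2.2.1)
    (fun x y c1 c2 => (h.l5 hb (h.cx _ hc y) x c1 c2).2.2.2.2.2.2.2.2.2.2.2.2.2.1)
    (fun x y c1 c2 => (h.l5 hb (h.cx _ hc y) x c1 c2).2.2.2.2.2.2.2.2.2.2.2.2.2.2.1)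
    (fun x y c1 c2 => (h.l5 hc (h.cx _ ha y) x c1 c2).2.2.2.2.2.1)
    (fun x y c1 c2 => (h.l5 hc (h.cx _ ha y) x c1 c2).2.2.2.2.2.2.2.2.1)
    (fun x y c1 c2 => (h.l5 hc (h.cx _ hb y) x c1 c2).2.2.2.2.2.1)
    (fun x y c1 c2 => (h.l5 hc (h.cx _ hb y) x c1 c2).2.2.2.2.2.2.1)
    (fun x y c1 c2 => (h.l5 hc (h.cx _ hb y) x c1 c2).2.2.2.2.2.2.2.1.trans (pow_one _).symm)
    (fun x y c1 c2 => (h.l5 hc (h.cx _ hb y) x c1 c2).2.2.2.2.2.2.2.2.1)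
    (fun x y c1 c2 => (h.l5 hc (h.cx _ hc y) x c1 c2).2.2.2.2.2.1)
    (fun x y c1 c2 => (h.l5 hc (h.cx _ hc y) x c1 c2).2.2.2.2.2.2.1)
    (fun x y c1 c2 => (h.l5 hc (h.cx _ hc y) x c1 c2).2.2.2.2.2.2.2.1.trans (pow_one _).symm)
    (fun _ _ => hz _) ea eb h.ex (fun x => (h.pc ha ha x).p1) (fun x => (h.pc ha ha x).p2)
    (fun x => (h.pc ha hb x).p1) (fun x => (h.pc ha hb x).p2) (fun x => (h.pc ha hb x).p3)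
    (fun x => (h.pc ha hb x).p4) (fun x => (h.pc ha hb x).p5) (fun x => (h.pc ha hb x).p6)
    (fun x => (h.pc ha hc x).p1) (fun x => (h.pc hb hb x).p1) (fun x => (h.pc hb hb x).p2)
    (fun x => (h.pc hb hc x).p1) (fun x => (h.pc hb hc x).p2) (fun x => (h.pc hb hc x).p3)
    (fun x => (h.pc hb hc x).p4) (fun x => (h.pc hb hc x).p5) (fun x => (h.pc hb hc x).p6)
    (fun x => (h.pc hc hc x).p1) (fun x => (h.pc hc hc x).p2) (fun x => (h.pc hc hc x).p3)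
    (fun x => (h.pc hc hc x).p4) (fun x => (h.pc hc hc x).p5) (fun x => (h.cen ha x).1)
    (fun x => (h.cen ha x).2) (fun x => (h.cen hb x).1) (fun x => (h.cen hb x).2)
    (fun x => (h.cen hc x).1) (fun x => (h.cen hc x).2)

theorem sb : cm (cm (cm c a) a) a = 1 := by
  have ea := cm_eq_one.mpr p.1
  have eb := cm_eq_one.mpr p.2
  obtain ⟨g0, g1, g2, g3, g4, g5, g6, g7, g8, g9, g10, g11⟩ := h.sa ha hb hc hz p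
  have k : cm (cm (cm c a) a) c = 1 :=
    KB.F5Sb.main a b c (fun x c1 => (h.e1 ha x c1).1) (fun x c1 => (h.e1 ha x c1).2)
      (fun x c1 c2 => (h.e2 ha x c1 c2).1) (fun x c1 c2 => (h.e2 ha x c1 c2).2.1)
      (fun x c1 c2 => (h.e2 ha x c1 c2).2.2.1) (fun x c1 c2 => (h.e2 ha x c1 c2).2.2.2.1)
      (fun x c1 c2 => (h.e2 ha x c1 c2).2.2.2.2.1) (fun x c1 c2 => (h.e2 ha x c1 c2).2.2.2.2.2.1)
      (fun x c1 c2 => (h.e2 ha x c1 c2).2.2.2.2.2.2.1)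
      (fun x c1 c2 => (h.e2 ha x c1 c2).2.2.2.2.2.2.2.2) (fun x c1 c2 => (h.e3 ha x c1 c2).1)
      (fun x c1 c2 => (h.e3 ha x c1 c2).2.1) (fun x c1 c2 => (h.e3 ha x c1 c2).2.2.1)
      (fun x c1 c2 => (h.e3 ha x c1 c2).2.2.2) (fun x y c1 => h.f2 ha (h.cx _ ha x) y c1)
      (fun x y c1 => h.f2' ha (h.cx _ ha x) y c1) (fun x c1 => (h.e1 hb x c1).1)
      (fun x c1 => (h.e1 hb x c1).2) (fun x c1 c2 => (h.e2 hb x c1 c2).1)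
      (fun x c1 c2 => (h.e2 hb x c1 c2).2.2.2.1) (fun x c1 c2 => (h.e2 hb x c1 c2).2.2.2.2.1)
      (fun x c1 c2 => (h.e2 hb x c1 c2).2.2.2.2.2.1) (fun x c1 c2 => (h.e2 hb x c1 c2).2.2.2.2.2.2.1)
      (fun x c1 c2 => (h.e2 hb x c1 c2).2.2.2.2.2.2.2.1) (fun x c1 c2 => (h.e3 hb x c1 c2).2.1)
      (fun x c1 c2 => (h.e3 hb x c1 c2).2.2.1) (fun x c1 c2 => (h.e3 hb x c1 c2).2.2.2)
      (fun x y c1 c2 c3 => (h.w3 hb x y c1 c2 c3).1) (fun x y c1 => h.f2 hb (h.cx _ hb x) y c1)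
      (fun x y c1 => h.f2' hb (h.cx _ hb x) y c1) (fun x c1 c2 => (h.e2 hc x c1 c2).2.1)
      (fun x c1 c2 => (h.e2 hc x c1 c2).2.2.1) (fun x c1 c2 => (h.e2 hc x c1 c2).2.2.2.1)
      (fun x c1 c2 => (h.e2 hc x c1 c2).2.2.2.2.1) (fun x c1 c2 => (h.e2 hc x c1 c2).2.2.2.2.2.2.1)
      (fun x c1 c2 => (h.e2 hc x c1 c2).2.2.2.2.2.2.2.1) (fun x c1 c2 => (h.e3 hc x c1 c2).2.1)
      (fun x c1 c2 => (h.e3 hc x c1 c2).2.2.2) (fun x y c1 => h.f2 hc (h.cx _ hc x) y c1)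
      (fun x y c1 => h.f2' hc (h.cx _ hc x) y c1)
      (fun x y c1 c2 => (h.l5 ha (h.cx _ ha y) x c1 c2).1)
      (fun x y c1 c2 => (h.l5 ha (h.cx _ ha y) x c1 c2).2.1)
      (fun x y c1 c2 => (h.l5 ha (h.cx _ ha y) x c1 c2).2.2.1)
      (fun x y c1 c2 => (h.l5 ha (h.cx _ ha y) x c1 c2).2.2.2.1)
      (fun x y c1 c2 => (h.l5 ha (h.cx _ ha y) x c1 c2).2.2.2.2.2.1)
      (fun x y c1 c2 => (h.l5 ha (h.cx _ ha y) x c1 c2).2.2.2.2.2.2.1)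
      (fun x y c1 c2 => (h.l5 ha (h.cx _ ha y) x c1 c2).2.2.2.2.2.2.2.1.trans (pow_one _).symm)
      (fun x y c1 c2 => (h.l5 ha (h.cx _ ha y) x c1 c2).2.2.2.2.2.2.2.2.1)
      (fun x y c1 c2 => (h.l5 ha (h.cx _ ha y) x c1 c2).2.2.2.2.2.2.2.2.2.1)
      (fun x y c1 c2 => (h.l5 ha (h.cx _ ha y) x c1 c2).2.2.2.2.2.2.2.2.2.2.2.1)
      (fun x y c1 c2 => (h.l5 ha (h.cx _ ha y) x c1 c2).2.2.2.2.2.2.2.2.2.2.2.2.1)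
      (fun x y c1 c2 => (h.l5 ha (h.cx _ ha y) x c1 c2).2.2.2.2.2.2.2.2.2.2.2.2.2.2.1)
      (fun x y c1 c2 => (h.l5 ha (h.cx _ ha y) x c1 c2).2.2.2.2.2.2.2.2.2.2.2.2.2.2.2)
      (fun x y c1 c2 => (h.l5 ha (h.cx _ hb y) x c1 c2).1)
      (fun x y c1 c2 => (h.l5 ha (h.cx _ hb y) x c1 c2).2.1)
      (fun x y c1 c2 => (h.l5 ha (h.cx _ hb y) x c1 c2).2.2.1)
      (fun x y c1 c2 => (h.l5 ha (h.cx _ hb y) x c1 c2).2.2.2.1)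
      (fun x y c1 c2 => (h.l5 ha (h.cx _ hb y) x c1 c2).2.2.2.2.1)
      (fun x y c1 c2 => (h.l5 ha (h.cx _ hb y) x c1 c2).2.2.2.2.2.1)
      (fun x y c1 c2 => (h.l5 ha (h.cx _ hb y) x c1 c2).2.2.2.2.2.2.1)
      (fun x y c1 c2 => (h.l5 ha (h.cx _ hb y) x c1 c2).2.2.2.2.2.2.2.1.trans (pow_one _).symm)
      (fun x y c1 c2 => (h.l5 ha (h.cx _ hb y) x c1 c2).2.2.2.2.2.2.2.2.1)
      (fun x y c1 c2 => (h.l5 ha (h.cx _ hb y) x c1 c2).2.2.2.2.2.2.2.2.2.1)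
      (fun x y c1 c2 => (h.l5 ha (h.cx _ hb y) x c1 c2).2.2.2.2.2.2.2.2.2.2.1)
      (fun x y c1 c2 => (h.l5 ha (h.cx _ hb y) x c1 c2).2.2.2.2.2.2.2.2.2.2.2.1)
      (fun x y c1 c2 => (h.l5 ha (h.cx _ hb y) x c1 c2).2.2.2.2.2.2.2.2.2.2.2.2.1)
      (fun x y c1 c2 => (h.l5 ha (h.cx _ hb y) x c1 c2).2.2.2.2.2.2.2.2.2.2.2.2.2.1)
      (fun x y c1 c2 => (h.l5 ha (h.cx _ hb y) x c1 c2).2.2.2.2.2.2.2.2.2.2.2.2.2.2.1)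
      (fun x y c1 c2 => (h.l5 ha (h.cx _ hb y) x c1 c2).2.2.2.2.2.2.2.2.2.2.2.2.2.2.2)
      (fun x y c1 c2 => (h.l5 ha (h.cx _ hc y) x c1 c2).1)
      (fun x y c1 c2 => (h.l5 ha (h.cx _ hc y) x c1 c2).2.1)
      (fun x y c1 c2 => (h.l5 ha (h.cx _ hc y) x c1 c2).2.2.1)
      (fun x y c1 c2 => (h.l5 ha (h.cx _ hc y) x c1 c2).2.2.2.1)
      (fun x y c1 c2 => (h.l5 ha (h.cx _ hc y) x c1 c2).2.2.2.2.1)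
      (fun x y c1 c2 => (h.l5 ha (h.cx _ hc y) x c1 c2).2.2.2.2.2.1)
      (fun x y c1 c2 => (h.l5 ha (h.cx _ hc y) x c1 c2).2.2.2.2.2.2.1)
      (fun x y c1 c2 => (h.l5 ha (h.cx _ hc y) x c1 c2).2.2.2.2.2.2.2.1.trans (pow_one _).symm)
      (fun x y c1 c2 => (h.l5 ha (h.cx _ hc y) x c1 c2).2.2.2.2.2.2.2.2.1)
      (fun x y c1 c2 => (h.l5 ha (h.cx _ hc y) x c1 c2).2.2.2.2.2.2.2.2.2.1)
      (fun x y c1 c2 => (h.l5 ha (h.cx _ hc y) x c1 c2).2.2.2.2.2.2.2.2.2.2.1)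
      (fun x y c1 c2 => (h.l5 ha (h.cx _ hc y) x c1 c2).2.2.2.2.2.2.2.2.2.2.2.1)
      (fun x y c1 c2 => (h.l5 ha (h.cx _ hc y) x c1 c2).2.2.2.2.2.2.2.2.2.2.2.2.1)
      (fun x y c1 c2 => (h.l5 ha (h.cx _ hc y) x c1 c2).2.2.2.2.2.2.2.2.2.2.2.2.2.1)
      (fun x y c1 c2 => (h.l5 ha (h.cx _ hc y) x c1 c2).2.2.2.2.2.2.2.2.2.2.2.2.2.2.1)
      (fun x y c1 c2 => (h.l5 ha (h.cx _ hc y) x c1 c2).2.2.2.2.2.2.2.2.2.2.2.2.2.2.2)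
      (fun x y c1 c2 => (h.l5 hb (h.cx _ ha y) x c1 c2).1)
      (fun x y c1 c2 => (h.l5 hb (h.cx _ ha y) x c1 c2).2.1)
      (fun x y c1 c2 => (h.l5 hb (h.cx _ ha y) x c1 c2).2.2.2.1)
      (fun x y c1 c2 => (h.l5 hb (h.cx _ ha y) x c1 c2).2.2.2.2.1)
      (fun x y c1 c2 => (h.l5 hb (h.cx _ ha y) x c1 c2).2.2.2.2.2.1)
      (fun x y c1 c2 => (h.l5 hb (h.cx _ ha y) x c1 c2).2.2.2.2.2.2.1)
      (fun x y c1 c2 => (h.l5 hb (h.cx _ ha y) x c1 c2).2.2.2.2.2.2.2.1.trans (pow_one _).symm)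
      (fun x y c1 c2 => (h.l5 hb (h.cx _ ha y) x c1 c2).2.2.2.2.2.2.2.2.1)
      (fun x y c1 c2 => (h.l5 hb (h.cx _ ha y) x c1 c2).2.2.2.2.2.2.2.2.2.1)
      (fun x y c1 c2 => (h.l5 hb (h.cx _ ha y) x c1 c2).2.2.2.2.2.2.2.2.2.2.2.1)
      (fun x y c1 c2 => (h.l5 hb (h.cx _ ha y) x c1 c2).2.2.2.2.2.2.2.2.2.2.2.2.2.2.2)
      (fun x y c1 c2 => (h.l5 hb (h.cx _ hb y) x c1 c2).1)
      (fun x y c1 c2 => (h.l5 hb (h.cx _ hb y) x c1 c2).2.1)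
      (fun x y c1 c2 => (h.l5 hb (h.cx _ hb y) x c1 c2).2.2.1)
      (fun x y c1 c2 => (h.l5 hb (h.cx _ hb y) x c1 c2).2.2.2.2.1)
      (fun x y c1 c2 => (h.l5 hb (h.cx _ hb y) x c1 c2).2.2.2.2.2.1)
      (fun x y c1 c2 => (h.l5 hb (h.cx _ hb y) x c1 c2).2.2.2.2.2.2.1)
      (fun x y c1 c2 => (h.l5 hb (h.cx _ hb y) x c1 c2).2.2.2.2.2.2.2.1.trans (pow_one _).symm)
      (fun x y c1 c2 => (h.l5 hb (h.cx _ hb y) x c1 c2).2.2.2.2.2.2.2.2.1)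
      (fun x y c1 c2 => (h.l5 hb (h.cx _ hb y) x c1 c2).2.2.2.2.2.2.2.2.2.1)
      (fun x y c1 c2 => (h.l5 hb (h.cx _ hb y) x c1 c2).2.2.2.2.2.2.2.2.2.2.2.1)
      (fun x y c1 c2 => (h.l5 hb (h.cx _ hb y) x c1 c2).2.2.2.2.2.2.2.2.2.2.2.2.1)
      (fun x y c1 c2 => (h.l5 hb (h.cx _ hb y) x c1 c2).2.2.2.2.2.2.2.2.2.2.2.2.2.2.1)
      (fun x y c1 c2 => (h.l5 hb (h.cx _ hc y) x c1 c2).1)
      (fun x y c1 c2 => (h.l5 hb (h.cx _ hc y) x c1 c2).2.2.2.1)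
      (fun x y c1 c2 => (h.l5 hb (h.cx _ hc y) x c1 c2).2.2.2.2.1)
      (fun x y c1 c2 => (h.l5 hb (h.cx _ hc y) x c1 c2).2.2.2.2.2.1)
      (fun x y c1 c2 => (h.l5 hb (h.cx _ hc y) x c1 c2).2.2.2.2.2.2.1)
      (fun x y c1 c2 => (h.l5 hb (h.cx _ hc y) x c1 c2).2.2.2.2.2.2.2.1.trans (pow_one _).symm)
      (fun x y c1 c2 => (h.l5 hb (h.cx _ hc y) x c1 c2).2.2.2.2.2.2.2.2.1)
      (fun x y c1 c2 => (h.l5 hb (h.cx _ hc y) x c1 c2).2.2.2.2.2.2.2.2.2.1)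
      (fun x y c1 c2 => (h.l5 hb (h.cx _ hc y) x c1 c2).2.2.2.2.2.2.2.2.2.2.1)
      (fun x y c1 c2 => (h.l5 hb (h.cx _ hc y) x c1 c2).2.2.2.2.2.2.2.2.2.2.2.1)
      (fun x y c1 c2 => (h.l5 hb (h.cx _ hc y) x c1 c2).2.2.2.2.2.2.2.2.2.2.2.2.1)
      (fun x y c1 c2 => (h.l5 hb (h.cx _ hc y) x c1 c2).2.2.2.2.2.2.2.2.2.2.2.2.2.1)
      (fun x y c1 c2 => (h.l5 hb (h.cx _ hc y) x c1 c2).2.2.2.2.2.2.2.2.2.2.2.2.2.2.1)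
      (fun x y c1 c2 => (h.l5 hb (h.cx _ hc y) x c1 c2).2.2.2.2.2.2.2.2.2.2.2.2.2.2.2)
      (fun x y c1 c2 => (h.l5 hc (h.cx _ ha y) x c1 c2).1)
      (fun x y c1 c2 => (h.l5 hc (h.cx _ ha y) x c1 c2).2.2.1)
      (fun x y c1 c2 => (h.l5 hc (h.cx _ ha y) x c1 c2).2.2.2.1)
      (fun x y c1 c2 => (h.l5 hc (h.cx _ ha y) x c1 c2).2.2.2.2.1)
      (fun x y c1 c2 => (h.l5 hc (h.cx _ ha y) x c1 c2).2.2.2.2.2.1)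
      (fun x y c1 c2 => (h.l5 hc (h.cx _ ha y) x c1 c2).2.2.2.2.2.2.1)
      (fun x y c1 c2 => (h.l5 hc (h.cx _ ha y) x c1 c2).2.2.2.2.2.2.2.1.trans (pow_one _).symm)
      (fun x y c1 c2 => (h.l5 hc (h.cx _ ha y) x c1 c2).2.2.2.2.2.2.2.2.1)
      (fun x y c1 c2 => (h.l5 hc (h.cx _ ha y) x c1 c2).2.2.2.2.2.2.2.2.2.1)
      (fun x y c1 c2 => (h.l5 hc (h.cx _ ha y) x c1 c2).2.2.2.2.2.2.2.2.2.2.2.2.1)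
      (fun x y c1 c2 => (h.l5 hc (h.cx _ ha y) x c1 c2).2.2.2.2.2.2.2.2.2.2.2.2.2.1)
      (fun x y c1 c2 => (h.l5 hc (h.cx _ ha y) x c1 c2).2.2.2.2.2.2.2.2.2.2.2.2.2.2.1)
      (fun x y c1 c2 => (h.l5 hc (h.cx _ ha y) x c1 c2).2.2.2.2.2.2.2.2.2.2.2.2.2.2.2)
      (fun x y c1 c2 => (h.l5 hc (h.cx _ hb y) x c1 c2).1)
      (fun x y c1 c2 => (h.l5 hc (h.cx _ hb y) x c1 c2).2.1)
      (fun x y c1 c2 => (h.l5 hc (h.cx _ hb y) x c1 c2).2.2.1)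
      (fun x y c1 c2 => (h.l5 hc (h.cx _ hb y) x c1 c2).2.2.2.1)
      (fun x y c1 c2 => (h.l5 hc (h.cx _ hb y) x c1 c2).2.2.2.2.1)
      (fun x y c1 c2 => (h.l5 hc (h.cx _ hb y) x c1 c2).2.2.2.2.2.1)
      (fun x y c1 c2 => (h.l5 hc (h.cx _ hb y) x c1 c2).2.2.2.2.2.2.1)
      (fun x y c1 c2 => (h.l5 hc (h.cx _ hb y) x c1 c2).2.2.2.2.2.2.2.1.trans (pow_one _).symm)
      (fun x y c1 c2 => (h.l5 hc (h.cx _ hb y) x c1 c2).2.2.2.2.2.2.2.2.1)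
      (fun x y c1 c2 => (h.l5 hc (h.cx _ hb y) x c1 c2).2.2.2.2.2.2.2.2.2.1)
      (fun x y c1 c2 => (h.l5 hc (h.cx _ hb y) x c1 c2).2.2.2.2.2.2.2.2.2.2.1)
      (fun x y c1 c2 => (h.l5 hc (h.cx _ hb y) x c1 c2).2.2.2.2.2.2.2.2.2.2.2.1)
      (fun x y c1 c2 => (h.l5 hc (h.cx _ hb y) x c1 c2).2.2.2.2.2.2.2.2.2.2.2.2.1)
      (fun x y c1 c2 => (h.l5 hc (h.cx _ hb y) x c1 c2).2.2.2.2.2.2.2.2.2.2.2.2.2.1)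
      (fun x y c1 c2 => (h.l5 hc (h.cx _ hb y) x c1 c2).2.2.2.2.2.2.2.2.2.2.2.2.2.2.1)
      (fun x y c1 c2 => (h.l5 hc (h.cx _ hb y) x c1 c2).2.2.2.2.2.2.2.2.2.2.2.2.2.2.2)
      (fun x y c1 c2 => (h.l5 hc (h.cx _ hc y) x c1 c2).1)
      (fun x y c1 c2 => (h.l5 hc (h.cx _ hc y) x c1 c2).2.1)
      (fun x y c1 c2 => (h.l5 hc (h.cx _ hc y) x c1 c2).2.2.1)
      (fun x y c1 c2 => (h.l5 hc (h.cx _ hc y) x c1 c2).2.2.2.2.1)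
      (fun x y c1 c2 => (h.l5 hc (h.cx _ hc y) x c1 c2).2.2.2.2.2.1)
      (fun x y c1 c2 => (h.l5 hc (h.cx _ hc y) x c1 c2).2.2.2.2.2.2.1)
      (fun x y c1 c2 => (h.l5 hc (h.cx _ hc y) x c1 c2).2.2.2.2.2.2.2.1.trans (pow_one _).symm)
      (fun x y c1 c2 => (h.l5 hc (h.cx _ hc y) x c1 c2).2.2.2.2.2.2.2.2.1)
      (fun x y c1 c2 => (h.l5 hc (h.cx _ hc y) x c1 c2).2.2.2.2.2.2.2.2.2.1)
      (fun x y c1 c2 => (h.l5 hc (h.cx _ hc y) x c1 c2).2.2.2.2.2.2.2.2.2.2.2.2.1)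
      (fun x y c1 c2 => (h.l5 hc (h.cx _ hc y) x c1 c2).2.2.2.2.2.2.2.2.2.2.2.2.2.1)
      (fun x y c1 c2 => (h.l5 hc (h.cx _ hc y) x c1 c2).2.2.2.2.2.2.2.2.2.2.2.2.2.2.2) hz
      (fun _ _ => hz _) ea eb g0 g1 g2 g3 g4 g5 g6 g7 g8 g9 g10 g11 h.ex (fun x => (h.pc ha ha x).p1)
      (fun x => (h.pc ha ha x).p2) (fun x => (h.pc ha ha x).p3) (fun x => (h.pc ha ha x).p4)
      (fun x => (h.pc ha ha x).p5) (fun x => (h.pc ha hb x).p1) (fun x => (h.pc ha hb x).p2)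
      (fun x => (h.pc ha hb x).p3) (fun x => (h.pc ha hb x).p4) (fun x => (h.pc ha hb x).p5)
      (fun x => (h.pc ha hb x).p6) (fun x => (h.pc ha hc x).p1) (fun x => (h.pc ha hc x).p2)
      (fun x => (h.pc ha hc x).p3) (fun x => (h.pc ha hc x).p4) (fun x => (h.pc ha hc x).p5)
      (fun x => (h.pc ha hc x).p6) (fun x => (h.pc hb hb x).p1) (fun x => (h.pc hb hb x).p2)
      (fun x => (h.pc hb hb x).p3) (fun x => (h.pc hb hb x).p4) (fun x => (h.pc hb hb x).p5)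
      (fun x => (h.pc hb hc x).p1) (fun x => (h.pc hb hc x).p2) (fun x => (h.pc hb hc x).p3)
      (fun x => (h.pc hb hc x).p4) (fun x => (h.pc hb hc x).p5) (fun x => (h.pc hb hc x).p6)
      (fun x => (h.pc hc hc x).p1) (fun x => (h.pc hc hc x).p2) (fun x => (h.pc hc hc x).p3)
      (fun x => (h.pc hc hc x).p4) (fun x => (h.pc hc hc x).p5) (fun x => (h.pc hc hc x).p6)
      (fun x => (h.cen ha x).1) (fun x => (h.cen ha x).2) (fun x => (h.cen hb x).1)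
      (fun x => (h.cen hb x).2) (fun x => (h.cen hc x).1) (fun x => (h.cen hc x).2)
  rw [(h.pl a ha c hc).p6, k, one_pow]

theorem sc : cm a b = 1 := by
  have ea := cm_eq_one.mpr p.1
  have eb := cm_eq_one.mpr p.2
  obtain ⟨g0, g1, g2, g3, g4, g5, g6, g7, g8, g9, g10, g11⟩ := h.sa ha hb hc hz p
  have za := h.sb ha hb hc hz p
  have zb := h.sb hb ha hc hz.swap p.symm
  obtain ⟨a1, a2, a3⟩ := h.cl3 ha hc za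
  obtain ⟨b1, b2, b3⟩ := h.cl3 hb hc zb
  exact KB.F5Sc.main a b c (fun x c1 => (h.e1 ha x c1).1) (fun x c1 => (h.e1 ha x c1).2)
    (fun x c1 c2 => (h.e2 ha x c1 c2).1) (fun x c1 c2 => (h.e2 ha x c1 c2).2.1)
    (fun x c1 c2 => (h.e2 ha x c1 c2).2.2.1) (fun x c1 c2 => (h.e2 ha x c1 c2).2.2.2.1)
    (fun x c1 c2 => (h.e2 ha x c1 c2).2.2.2.2.1) (fun x c1 c2 => (h.e2 ha x c1 c2).2.2.2.2.2.1)
    (fun x c1 c2 => (h.e2 ha x c1 c2).2.2.2.2.2.2.2.1)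
    (fun x c1 c2 => (h.e2 ha x c1 c2).2.2.2.2.2.2.2.2) (fun x y c1 => h.f2 ha (h.cx _ ha x) y c1)
    (fun x y c1 => h.f2' ha (h.cx _ ha x) y c1) (fun x c1 => (h.e1 hb x c1).1)
    (fun x c1 => (h.e1 hb x c1).2) (fun x c1 c2 => (h.e2 hb x c1 c2).1)
    (fun x c1 c2 => (h.e2 hb x c1 c2).2.2.1) (fun x c1 c2 => (h.e2 hb x c1 c2).2.2.2.1)
    (fun x c1 c2 => (h.e2 hb x c1 c2).2.2.2.2.1) (fun x c1 c2 => (h.e2 hb x c1 c2).2.2.2.2.2.1)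
    (fun x c1 c2 => (h.e2 hb x c1 c2).2.2.2.2.2.2.2.2) (fun x y c1 => h.f2 hb (h.cx _ hb x) y c1)
    (fun x y c1 => h.f2' hb (h.cx _ hb x) y c1) (fun x c1 => (h.e1 hc x c1).1)
    (fun x c1 => (h.e1 hc x c1).2) (fun x c1 c2 => (h.e2 hc x c1 c2).1)
    (fun x c1 c2 => (h.e2 hc x c1 c2).2.1) (fun x c1 c2 => (h.e2 hc x c1 c2).2.2.1)
    (fun x c1 c2 => (h.e2 hc x c1 c2).2.2.2.1) (fun x c1 c2 => (h.e2 hc x c1 c2).2.2.2.2.1)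
    (fun x c1 c2 => (h.e2 hc x c1 c2).2.2.2.2.2.1) (fun x c1 c2 => (h.e2 hc x c1 c2).2.2.2.2.2.2.1)
    (fun x c1 c2 => (h.e2 hc x c1 c2).2.2.2.2.2.2.2.1)
    (fun x c1 c2 => (h.e2 hc x c1 c2).2.2.2.2.2.2.2.2) (fun x y c1 => h.f2 hc (h.cx _ hc x) y c1)
    (fun x y c1 => h.f2' hc (h.cx _ hc x) y c1)
    (fun x y c1 c2 => (h.l5 ha (h.cx _ ha y) x c1 c2).1)
    (fun x y c1 c2 => (h.l5 ha (h.cx _ ha y) x c1 c2).2.1)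
    (fun x y c1 c2 => (h.l5 ha (h.cx _ ha y) x c1 c2).2.2.1)
    (fun x y c1 c2 => (h.l5 ha (h.cx _ ha y) x c1 c2).2.2.2.1)
    (fun x y c1 c2 => (h.l5 ha (h.cx _ ha y) x c1 c2).2.2.2.2.1)
    (fun x y c1 c2 => (h.l5 ha (h.cx _ ha y) x c1 c2).2.2.2.2.2.1)
    (fun x y c1 c2 => (h.l5 ha (h.cx _ ha y) x c1 c2).2.2.2.2.2.2.1)
    (fun x y c1 c2 => (h.l5 ha (h.cx _ ha y) x c1 c2).2.2.2.2.2.2.2.1.trans (pow_one _).symm)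
    (fun x y c1 c2 => (h.l5 ha (h.cx _ ha y) x c1 c2).2.2.2.2.2.2.2.2.1)
    (fun x y c1 c2 => (h.l5 ha (h.cx _ ha y) x c1 c2).2.2.2.2.2.2.2.2.2.1)
    (fun x y c1 c2 => (h.l5 ha (h.cx _ ha y) x c1 c2).2.2.2.2.2.2.2.2.2.2.2.1)
    (fun x y c1 c2 => (h.l5 ha (h.cx _ ha y) x c1 c2).2.2.2.2.2.2.2.2.2.2.2.2.1)
    (fun x y c1 c2 => (h.l5 ha (h.cx _ ha y) x c1 c2).2.2.2.2.2.2.2.2.2.2.2.2.2.2.1)
    (fun x y c1 c2 => (h.l5 ha (h.cx _ hb y) x c1 c2).1)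
    (fun x y c1 c2 => (h.l5 ha (h.cx _ hb y) x c1 c2).2.1)
    (fun x y c1 c2 => (h.l5 ha (h.cx _ hb y) x c1 c2).2.2.1)
    (fun x y c1 c2 => (h.l5 ha (h.cx _ hb y) x c1 c2).2.2.2.1)
    (fun x y c1 c2 => (h.l5 ha (h.cx _ hb y) x c1 c2).2.2.2.2.1)
    (fun x y c1 c2 => (h.l5 ha (h.cx _ hb y) x c1 c2).2.2.2.2.2.1)
    (fun x y c1 c2 => (h.l5 ha (h.cx _ hb y) x c1 c2).2.2.2.2.2.2.1)
    (fun x y c1 c2 => (h.l5 ha (h.cx _ hb y) x c1 c2).2.2.2.2.2.2.2.1.trans (pow_one _).symm)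
    (fun x y c1 c2 => (h.l5 ha (h.cx _ hb y) x c1 c2).2.2.2.2.2.2.2.2.1)
    (fun x y c1 c2 => (h.l5 ha (h.cx _ hb y) x c1 c2).2.2.2.2.2.2.2.2.2.1)
    (fun x y c1 c2 => (h.l5 ha (h.cx _ hb y) x c1 c2).2.2.2.2.2.2.2.2.2.2.1)
    (fun x y c1 c2 => (h.l5 ha (h.cx _ hb y) x c1 c2).2.2.2.2.2.2.2.2.2.2.2.1)
    (fun x y c1 c2 => (h.l5 ha (h.cx _ hb y) x c1 c2).2.2.2.2.2.2.2.2.2.2.2.2.1)
    (fun x y c1 c2 => (h.l5 ha (h.cx _ hb y) x c1 c2).2.2.2.2.2.2.2.2.2.2.2.2.2.1)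
    (fun x y c1 c2 => (h.l5 ha (h.cx _ hb y) x c1 c2).2.2.2.2.2.2.2.2.2.2.2.2.2.2.1)
    (fun x y c1 c2 => (h.l5 ha (h.cx _ hc y) x c1 c2).1)
    (fun x y c1 c2 => (h.l5 ha (h.cx _ hc y) x c1 c2).2.1)
    (fun x y c1 c2 => (h.l5 ha (h.cx _ hc y) x c1 c2).2.2.1)
    (fun x y c1 c2 => (h.l5 ha (h.cx _ hc y) x c1 c2).2.2.2.1)
    (fun x y c1 c2 => (h.l5 ha (h.cx _ hc y) x c1 c2).2.2.2.2.1)
    (fun x y c1 c2 => (h.l5 ha (h.cx _ hc y) x c1 c2).2.2.2.2.2.1)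
    (fun x y c1 c2 => (h.l5 ha (h.cx _ hc y) x c1 c2).2.2.2.2.2.2.1)
    (fun x y c1 c2 => (h.l5 ha (h.cx _ hc y) x c1 c2).2.2.2.2.2.2.2.1.trans (pow_one _).symm)
    (fun x y c1 c2 => (h.l5 ha (h.cx _ hc y) x c1 c2).2.2.2.2.2.2.2.2.1)
    (fun x y c1 c2 => (h.l5 ha (h.cx _ hc y) x c1 c2).2.2.2.2.2.2.2.2.2.1)
    (fun x y c1 c2 => (h.l5 ha (h.cx _ hc y) x c1 c2).2.2.2.2.2.2.2.2.2.2.1)
    (fun x y c1 c2 => (h.l5 ha (h.cx _ hc y) x c1 c2).2.2.2.2.2.2.2.2.2.2.2.1)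
    (fun x y c1 c2 => (h.l5 ha (h.cx _ hc y) x c1 c2).2.2.2.2.2.2.2.2.2.2.2.2.1)
    (fun x y c1 c2 => (h.l5 ha (h.cx _ hc y) x c1 c2).2.2.2.2.2.2.2.2.2.2.2.2.2.1)
    (fun x y c1 c2 => (h.l5 ha (h.cx _ hc y) x c1 c2).2.2.2.2.2.2.2.2.2.2.2.2.2.2.1)
    (fun x y c1 c2 => (h.l5 hb (h.cx _ ha y) x c1 c2).1)
    (fun x y c1 c2 => (h.l5 hb (h.cx _ ha y) x c1 c2).2.1)
    (fun x y c1 c2 => (h.l5 hb (h.cx _ ha y) x c1 c2).2.2.1)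
    (fun x y c1 c2 => (h.l5 hb (h.cx _ ha y) x c1 c2).2.2.2.1)
    (fun x y c1 c2 => (h.l5 hb (h.cx _ ha y) x c1 c2).2.2.2.2.1)
    (fun x y c1 c2 => (h.l5 hb (h.cx _ ha y) x c1 c2).2.2.2.2.2.1)
    (fun x y c1 c2 => (h.l5 hb (h.cx _ ha y) x c1 c2).2.2.2.2.2.2.1)
    (fun x y c1 c2 => (h.l5 hb (h.cx _ ha y) x c1 c2).2.2.2.2.2.2.2.1.trans (pow_one _).symm)
    (fun x y c1 c2 => (h.l5 hb (h.cx _ ha y) x c1 c2).2.2.2.2.2.2.2.2.1)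
    (fun x y c1 c2 => (h.l5 hb (h.cx _ ha y) x c1 c2).2.2.2.2.2.2.2.2.2.1)
    (fun x y c1 c2 => (h.l5 hb (h.cx _ ha y) x c1 c2).2.2.2.2.2.2.2.2.2.2.1)
    (fun x y c1 c2 => (h.l5 hb (h.cx _ ha y) x c1 c2).2.2.2.2.2.2.2.2.2.2.2.1)
    (fun x y c1 c2 => (h.l5 hb (h.cx _ ha y) x c1 c2).2.2.2.2.2.2.2.2.2.2.2.2.1)
    (fun x y c1 c2 => (h.l5 hb (h.cx _ ha y) x c1 c2).2.2.2.2.2.2.2.2.2.2.2.2.2.1)
    (fun x y c1 c2 => (h.l5 hb (h.cx _ ha y) x c1 c2).2.2.2.2.2.2.2.2.2.2.2.2.2.2.1)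
    (fun x y c1 c2 => (h.l5 hb (h.cx _ ha y) x c1 c2).2.2.2.2.2.2.2.2.2.2.2.2.2.2.2)
    (fun x y c1 c2 => (h.l5 hb (h.cx _ hb y) x c1 c2).1)
    (fun x y c1 c2 => (h.l5 hb (h.cx _ hb y) x c1 c2).2.1)
    (fun x y c1 c2 => (h.l5 hb (h.cx _ hb y) x c1 c2).2.2.1)
    (fun x y c1 c2 => (h.l5 hb (h.cx _ hb y) x c1 c2).2.2.2.1)
    (fun x y c1 c2 => (h.l5 hb (h.cx _ hb y) x c1 c2).2.2.2.2.1)
    (fun x y c1 c2 => (h.l5 hb (h.cx _ hb y) x c1 c2).2.2.2.2.2.1)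
    (fun x y c1 c2 => (h.l5 hb (h.cx _ hb y) x c1 c2).2.2.2.2.2.2.1)
    (fun x y c1 c2 => (h.l5 hb (h.cx _ hb y) x c1 c2).2.2.2.2.2.2.2.1.trans (pow_one _).symm)
    (fun x y c1 c2 => (h.l5 hb (h.cx _ hb y) x c1 c2).2.2.2.2.2.2.2.2.1)
    (fun x y c1 c2 => (h.l5 hb (h.cx _ hb y) x c1 c2).2.2.2.2.2.2.2.2.2.1)
    (fun x y c1 c2 => (h.l5 hb (h.cx _ hb y) x c1 c2).2.2.2.2.2.2.2.2.2.2.2.1)
    (fun x y c1 c2 => (h.l5 hb (h.cx _ hb y) x c1 c2).2.2.2.2.2.2.2.2.2.2.2.2.2.2.1)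
    (fun x y c1 c2 => (h.l5 hb (h.cx _ hc y) x c1 c2).1)
    (fun x y c1 c2 => (h.l5 hb (h.cx _ hc y) x c1 c2).2.1)
    (fun x y c1 c2 => (h.l5 hb (h.cx _ hc y) x c1 c2).2.2.1)
    (fun x y c1 c2 => (h.l5 hb (h.cx _ hc y) x c1 c2).2.2.2.1)
    (fun x y c1 c2 => (h.l5 hb (h.cx _ hc y) x c1 c2).2.2.2.2.1)
    (fun x y c1 c2 => (h.l5 hb (h.cx _ hc y) x c1 c2).2.2.2.2.2.1)
    (fun x y c1 c2 => (h.l5 hb (h.cx _ hc y) x c1 c2).2.2.2.2.2.2.1)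
    (fun x y c1 c2 => (h.l5 hb (h.cx _ hc y) x c1 c2).2.2.2.2.2.2.2.1.trans (pow_one _).symm)
    (fun x y c1 c2 => (h.l5 hb (h.cx _ hc y) x c1 c2).2.2.2.2.2.2.2.2.1)
    (fun x y c1 c2 => (h.l5 hb (h.cx _ hc y) x c1 c2).2.2.2.2.2.2.2.2.2.1)
    (fun x y c1 c2 => (h.l5 hb (h.cx _ hc y) x c1 c2).2.2.2.2.2.2.2.2.2.2.1)
    (fun x y c1 c2 => (h.l5 hb (h.cx _ hc y) x c1 c2).2.2.2.2.2.2.2.2.2.2.2.1)
    (fun x y c1 c2 => (h.l5 hb (h.cx _ hc y) x c1 c2).2.2.2.2.2.2.2.2.2.2.2.2.1)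
    (fun x y c1 c2 => (h.l5 hb (h.cx _ hc y) x c1 c2).2.2.2.2.2.2.2.2.2.2.2.2.2.1)
    (fun x y c1 c2 => (h.l5 hb (h.cx _ hc y) x c1 c2).2.2.2.2.2.2.2.2.2.2.2.2.2.2.1)
    (fun x y c1 c2 => (h.l5 hc (h.cx _ ha y) x c1 c2).1)
    (fun x y c1 c2 => (h.l5 hc (h.cx _ ha y) x c1 c2).2.1)
    (fun x y c1 c2 => (h.l5 hc (h.cx _ ha y) x c1 c2).2.2.1)
    (fun x y c1 c2 => (h.l5 hc (h.cx _ ha y) x c1 c2).2.2.2.1)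
    (fun x y c1 c2 => (h.l5 hc (h.cx _ ha y) x c1 c2).2.2.2.2.1)
    (fun x y c1 c2 => (h.l5 hc (h.cx _ ha y) x c1 c2).2.2.2.2.2.1)
    (fun x y c1 c2 => (h.l5 hc (h.cx _ ha y) x c1 c2).2.2.2.2.2.2.1)
    (fun x y c1 c2 => (h.l5 hc (h.cx _ ha y) x c1 c2).2.2.2.2.2.2.2.1.trans (pow_one _).symm)
    (fun x y c1 c2 => (h.l5 hc (h.cx _ ha y) x c1 c2).2.2.2.2.2.2.2.2.1)
    (fun x y c1 c2 => (h.l5 hc (h.cx _ ha y) x c1 c2).2.2.2.2.2.2.2.2.2.2.1)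
    (fun x y c1 c2 => (h.l5 hc (h.cx _ ha y) x c1 c2).2.2.2.2.2.2.2.2.2.2.2.1)
    (fun x y c1 c2 => (h.l5 hc (h.cx _ ha y) x c1 c2).2.2.2.2.2.2.2.2.2.2.2.2.1)
    (fun x y c1 c2 => (h.l5 hc (h.cx _ ha y) x c1 c2).2.2.2.2.2.2.2.2.2.2.2.2.2.1)
    (fun x y c1 c2 => (h.l5 hc (h.cx _ ha y) x c1 c2).2.2.2.2.2.2.2.2.2.2.2.2.2.2.1)
    (fun x y c1 c2 => (h.l5 hc (h.cx _ hb y) x c1 c2).1)
    (fun x y c1 c2 => (h.l5 hc (h.cx _ hb y) x c1 c2).2.1)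
    (fun x y c1 c2 => (h.l5 hc (h.cx _ hb y) x c1 c2).2.2.2.2.1)
    (fun x y c1 c2 => (h.l5 hc (h.cx _ hb y) x c1 c2).2.2.2.2.2.1)
    (fun x y c1 c2 => (h.l5 hc (h.cx _ hb y) x c1 c2).2.2.2.2.2.2.1)
    (fun x y c1 c2 => (h.l5 hc (h.cx _ hb y) x c1 c2).2.2.2.2.2.2.2.1.trans (pow_one _).symm)
    (fun x y c1 c2 => (h.l5 hc (h.cx _ hb y) x c1 c2).2.2.2.2.2.2.2.2.1)
    (fun x y c1 c2 => (h.l5 hc (h.cx _ hb y) x c1 c2).2.2.2.2.2.2.2.2.2.2.2.1)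
    (fun x y c1 c2 => (h.l5 hc (h.cx _ hb y) x c1 c2).2.2.2.2.2.2.2.2.2.2.2.2.1)
    (fun x y c1 c2 => (h.l5 hc (h.cx _ hb y) x c1 c2).2.2.2.2.2.2.2.2.2.2.2.2.2.1)
    (fun x y c1 c2 => (h.l5 hc (h.cx _ hb y) x c1 c2).2.2.2.2.2.2.2.2.2.2.2.2.2.2.1)
    (fun x y c1 c2 => (h.l5 hc (h.cx _ hc y) x c1 c2).1)
    (fun x y c1 c2 => (h.l5 hc (h.cx _ hc y) x c1 c2).2.2.2.2.1)
    (fun x y c1 c2 => (h.l5 hc (h.cx _ hc y) x c1 c2).2.2.2.2.2.1)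
    (fun x y c1 c2 => (h.l5 hc (h.cx _ hc y) x c1 c2).2.2.2.2.2.2.1)
    (fun x y c1 c2 => (h.l5 hc (h.cx _ hc y) x c1 c2).2.2.2.2.2.2.2.1.trans (pow_one _).symm)
    (fun x y c1 c2 => (h.l5 hc (h.cx _ hc y) x c1 c2).2.2.2.2.2.2.2.2.1)
    (fun x y c1 c2 => (h.l5 hc (h.cx _ hc y) x c1 c2).2.2.2.2.2.2.2.2.2.1)
    (fun x y c1 c2 => (h.l5 hc (h.cx _ hc y) x c1 c2).2.2.2.2.2.2.2.2.2.2.2.2.1)
    (fun x y c1 c2 => (h.l5 hc (h.cx _ hc y) x c1 c2).2.2.2.2.2.2.2.2.2.2.2.2.2.1)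
    (fun x y c1 c2 => (h.l5 hc (h.cx _ hc y) x c1 c2).2.2.2.2.2.2.2.2.2.2.2.2.2.2.1) hz
    (fun _ _ => hz _) ea eb g0 g1 g2 g3 g4 g5 g6 g7 g8 g9 g10 g11 za a1 a2 a3 zb b1 b2 b3 h.ex
    (fun x => (h.pc ha ha x).p1) (fun x => (h.pc ha ha x).p2) (fun x => (h.pc ha ha x).p3)
    (fun x => (h.pc ha ha x).p4) (fun x => (h.pc ha ha x).p5) (fun x => (h.pc ha ha x).p6)
    (fun x => (h.pc ha hb x).p1) (fun x => (h.pc ha hb x).p2) (fun x => (h.pc ha hb x).p3)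
    (fun x => (h.pc ha hb x).p4) (fun x => (h.pc ha hb x).p5) (fun x => (h.pc ha hb x).p6)
    (fun x => (h.pc ha hc x).p1) (fun x => (h.pc ha hc x).p2) (fun x => (h.pc ha hc x).p3)
    (fun x => (h.pc ha hc x).p4) (fun x => (h.pc ha hc x).p5) (fun x => (h.pc ha hc x).p6)
    (fun x => (h.pc hb hb x).p1) (fun x => (h.pc hb hb x).p2) (fun x => (h.pc hb hb x).p3)
    (fun x => (h.pc hb hb x).p5) (fun x => (h.pc hb hb x).p6) (fun x => (h.pc hb hc x).p1)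
    (fun x => (h.pc hb hc x).p2) (fun x => (h.pc hb hc x).p3) (fun x => (h.pc hb hc x).p4)
    (fun x => (h.pc hb hc x).p5) (fun x => (h.pc hb hc x).p6) (fun x => (h.pc hc hc x).p1)
    (fun x => (h.pc hc hc x).p2) (fun x => (h.pc hc hc x).p3) (fun x => (h.pc hc hc x).p4)
    (fun x => (h.pc hc hc x).p5) (fun x => (h.pc hc hc x).p6) (fun x => (h.cen ha x).1)
    (fun x => (h.cen ha x).2) (fun x => (h.cen hb x).1) (fun x => (h.cen hb x).2)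
    (fun x => (h.cen hc x).1) (fun x => (h.cen hc x).2)

end

/-- a class 2 pair and a third element of `X` generate a nilpotent group -/
theorem t7 (p : P2 a b) : Group.IsNilpotent (Subgroup.closure ({a, b, c} : Set G)) :=
  nil3 h ha hb hc fun _ _ _ _ _ _ k ka kb kc kz _ e =>
    k.tb ka kb kc kz (k.sc ka kb kc kz (e p))

theorem key (p : P2 a b) :
    cm (cm c (cm a b)) (cm a b) = 1 ∧ cm (cm (c ^ 2) (cm a b)) (cm a b) = 1 :=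
  KB.F5T.main _ (h.t7 ha hb hc p) a b c (m1 _ _ _) (m2 _ _ _) (m3 _ _ _)
    (h.ex _) (h.ex _) (h.ex _) (cm_eq_one.mpr p.1) (cm_eq_one.mpr p.2) (fun z _ => h.ex z)
    (fun x _ => (h.pc ha hc x).p1) (fun x _ => (h.pc ha hc x).p2)
    (fun x _ => (h.pc ha hc x).p3) (fun x _ => (h.pc ha hc x).p4)
    (fun x _ => (h.pc ha hc x).q5) (fun x _ => (h.pc ha hc x).q6)
    (fun x _ => (h.pc hb hc x).p1) (fun x _ => (h.pc hb hc x).p2)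
    (fun x _ => (h.pc hb hc x).p3) (fun x _ => (h.pc hb hc x).p4)
    (fun x _ => (h.pc hb hc x).q5) (fun x _ => (h.pc hb hc x).q6)
    (fun x _ => (h.pc ha hb x).p1) (fun x _ => (h.pc ha hb x).p2)
    (fun x _ => (h.pc ha hb x).p3) (fun x _ => (h.pc ha hb x).p4)
    (fun x _ => (h.pc ha hb x).q5) (fun x _ => (h.pc ha hb x).q6)
    (fun z _ => h.r4 ha z) (fun z _ => h.r4 hb z) fun z _ => h.r4 hc z

end S5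

theorem f5 : F.F5.{u} := fun _ _ _ ex _ ha _ hu _ hv p _ hc => (s5_cls ha ex).key hu hv hc p

/-- a right 4-Engel element of order 5 lies in the Hirsch-Plotkin radical -/
theorem sp5 : Pool.Agent.P.MP_9682d1_al.G.Sp.{u} 5 := F.sp5_of_f5 f5

end Pool.Agent.P.MP_9682d1_al.B5
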